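import Pool.Agent.helper13.U4.SpecD

/-!
# u4:DIR (MP_62ffdf_lc): the sums with small `ρ` or small `σ`, assembly
-/

set_option autoImplicit false

namespace Pool.Agent.U4

open Pool.Agent.UL

lemma DIR_par {k q h v : ℕ} (hp : Par k q h v) : ∃ n, 1 ≤ n ∧ h = 4 * n ∧ 15 * h ≤ v + 1 := by
  obtain ⟨hk, hh, hq, hv⟩ := hp
  refine ⟨2 ^ (k - 2), Nat.one_le_two_pow, ?_, ?_⟩
  · rw [hh]
    obtain ⟨j, rfl⟩ := Nat.exists_eq_add_of_le hk
    rw [Nat.add_sub_cancel_left, pow_add]
    norm_num
  · rw [hv]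
    nlinarith

theorem DIR (h1 : PTW_stmt) (h2 : DA_stmt) (h3 : DC1_stmt) (h4 : DC2_stmt) (h5 : DD_stmt) (h6 : DE1_stmt) (h7 : DE2_stmt) (h8 : PA_stmt) (h9 : PB_stmt) (h10 : PC_stmt) (h11 : PD_stmt) (h12 : PE_stmt) (h13 : PF_stmt) (h14 : PG_stmt) (h15 : PH_stmt) (h16 : PS_stmt) : DIR_stmt := by
  intro k q h v x hp hFL hFH ρ σ hσ hlow hρ hcase
  obtain ⟨n, hn1, hn, hv15⟩ := DIR_par hp
  have hA := h2 h q v x (by omega) hFL σ hσ
  by_cases hρ1 : ρ ≤ 2 * h + 6
  · -- small ρ
    rcases Nat.lt_or_ge ρ 3 with hr | hr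
    · obtain rfl | rfl | rfl : ρ = 0 ∨ ρ = 1 ∨ ρ = 2 := by omega
      · exact hA.1 (by omega)
      · exact hA.2.1 (by omega)
      · exact hA.2.2
    · rcases Nat.lt_or_ge (2 * h) ρ with hr2 | hr2
      · rcases Nat.lt_or_ge ρ (2 * h + 4) with hr3 | hr3
        · exact h6 k q h v x hp hFL hFH ρ σ (by omega) (by omega) hσ
        · exact h7 k q h v x hp hFL hFH ρ σ hr3 hρ1 hσ
      · by_cases hm : ρ % 4 = 1
        · exact h5 k q h v x hp hFL ρ σ (by omega) (by omega) hm hσ
        · rcases Nat.lt_or_ge (σ + 2 * h) v with hs | hs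
          · exact h3 k q h v x hp hFL ρ σ hr hr2 hm hs
          · exact h4 k q h v x hp hFL hFH ρ σ hr hr2 hm hs hσ
  · rcases (show σ ≤ 5 * h + 7 ∨ (v ≤ σ + 2 ∧ ρ ≤ 4 * h + 4) by omega) with hs | ⟨hs, hs2⟩
    · -- second type
      obtain ⟨P, rfl⟩ : ∃ P, ρ = P + 2 := ⟨ρ - 2, by omega⟩
      have hv2 : (σ + v + v) % 2 = σ % 2 := by omega
      rcases Nat.lt_or_ge P (4 * h + 4) with hP | hP
      · by_cases hm : P % 4 = 3
        · obtain ⟨k1, k2⟩ := h9 k q h v x hp hFL hFH P (σ + v) (by omega) (by omega) (by omega) hm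
          rcases Nat.mod_two_eq_zero_or_one σ with hσ2 | hσ2
          · exact (h1 v x P σ).2 (k1 (by omega) (by omega))
          · rcases Nat.lt_or_ge P (4 * h) with hP2 | hP2
            · exact (h1 v x P σ).2 (k2 (by omega) (by omega))
            · obtain rfl : P = 4 * h + 3 := by omega
              by_cases hex : σ = h + 1 ∨ σ = 3 * h + 1 ∨ σ = 5 * h + 1
              · exact (h16 k q h v x hp hFL hFH).1 σ hex
              · exact (h1 v x _ σ).2 (h10 k q h v x hp hFL hFH (σ + v) (by omega) (by omega)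
                  (by omega) (by omega) (by omega) (by omega))
        · exact (h1 v x P σ).2 (h8 k q h v x hp hFL hFH P (σ + v) (by omega) (by omega) (by omega)
            (by omega) hm)
      · rcases Nat.lt_or_ge P (4 * h + 7) with hP2 | hP2
        · obtain ⟨c, rfl⟩ := Nat.exists_eq_add_of_le hP
          exact (h1 v x _ σ).2 (h11 k q h v x hp hFL hFH c (σ + v) (by omega) (by omega) (by omega))
        · rcases Nat.lt_or_ge P (4 * h + 8) with hP3 | hP3
          · obtain rfl : P = 4 * h + 7 := by omega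
            by_cases hex : σ = h + 1 ∨ σ = 3 * h + 1 ∨ σ = 5 * h + 1 ∨ σ = h + 3 ∨ σ = 3 * h + 3 ∨
                σ = 5 * h + 3
            · exact (h16 k q h v x hp hFL hFH).2 σ hex
            · exact (h1 v x _ σ).2 (h12 k q h v x hp hFL hFH (σ + v) (by omega) (by omega)
                (by omega) (by omega) (by omega) (by omega) (by omega) (by omega))
          · rcases Nat.lt_or_ge P (4 * h + 11) with hP4 | hP4
            · obtain ⟨c, rfl⟩ := Nat.exists_eq_add_of_le hP3
              exact (h1 v x _ σ).2 (h13 k q h v x hp hFL hFH c (σ + v) (by omega) (by omega)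
                (by omega))
            · rcases Nat.lt_or_ge P (4 * h + 12) with hP5 | hP5
              · obtain rfl : P = 4 * h + 11 := by omega
                exact (h1 v x _ σ).2 (h14 k q h v x hp hFL hFH (σ + v) (by omega) (by omega))
              · obtain ⟨c, rfl⟩ := Nat.exists_eq_add_of_le hP5
                exact (h1 v x _ σ).2 (h15 k q h v x hp hFL hFH c (σ + v) (by omega) (by omega)
                  (by omega))
    · -- first type
      rcases Nat.lt_or_ge ρ (4 * h + 4) with hP | hP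
      · by_cases hm : ρ % 4 = 3
        · obtain ⟨k1, k2⟩ := h9 k q h v x hp hFL hFH ρ σ (by omega) (by omega) (by omega) hm
          rcases Nat.mod_two_eq_zero_or_one (σ + v) with hσ2 | hσ2
          · exact (h1 v x ρ σ).1 (k1 hσ2 (by omega))
          · rcases Nat.lt_or_ge ρ (4 * h) with hP2 | hP2
            · exact (h1 v x ρ σ).1 (k2 hσ2 (by omega))
            · obtain rfl : ρ = 4 * h + 3 := by omega
              exact (h1 v x _ σ).1 (h10 k q h v x hp hFL hFH σ (by omega) (by omega)
                hσ2 (by omega) (by omega) (by omega))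
        · exact (h1 v x ρ σ).1 (h8 k q h v x hp hFL hFH ρ σ (by omega) (by omega) (by omega)
            (by omega) hm)
      · obtain rfl : ρ = 4 * h + 4 := by omega
        exact (h1 v x _ σ).1 (h11 k q h v x hp hFL hFH 0 σ (by omega) (by omega) (by omega))

end Pool.Agent.U4
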